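import Mathlib
import Pool.Agent.Lib.MP_0638d8_an.Defs
import Pool.Agent.Lib.MP_0638d8_an.Main

/-!
# The transfinite diameter of iterates under a mixing map need not converge
-/

open scoped ENNReal
open MeasureTheory
open Pool.Agent.Lib.MP_0638d8_an

namespace Pool.Agent.Results.MP_0638d8_an.MixingCounterexample

/-- There are a compact metric space `S` with its Borel σ-algebra, a Borel probability measure `P`
charging every ball and a continuous `P`-mixing map `ψ` sending measurable sets to measurable sets, such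
that `1/4 ≤ ρ(S) ≤ 1`, while there are compact sets `A` of measure arbitrarily close to `1` with
`ρ(ψⁿA) = ess ρ(ψⁿA) = 0` for every `n`. -/
theorem result :
    ∃ (S : Type) (_ : MetricSpace S) (_ : MeasurableSpace S) (P : Measure S) (ψ : S → S),
      CompactSpace S ∧ BorelSpace S ∧ IsProbabilityMeasure P ∧ BallsPositive P ∧
      Continuous ψ ∧ IsMixing P ψ ∧ (∀ B, MeasurableSet B → MeasurableSet (ψ '' B)) ∧
      1 / 4 ≤ transfiniteDiameter (Set.univ : Set S) ∧
      transfiniteDiameter (Set.univ : Set S) ≤ 1 ∧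
      ∀ ε : ℝ≥0∞, 0 < ε → ∃ A : Set S, IsCompact A ∧ P Aᶜ < ε ∧
        (∀ n : ℕ, transfiniteDiameter (ψ^[n] '' A) = 0) ∧
        (∀ n : ℕ, essTransfiniteDiameter P (ψ^[n] '' A) = 0) :=
  Pool.Agent.Lib.MP_0638d8_an.Main.main

end Pool.Agent.Results.MP_0638d8_an.MixingCounterexample
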